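import Mathlib

/-!
# Oracle machines with a write-only query tape: definitions
-/

set_option autoImplicit false

namespace Pool.Agent.V8H39.SO

/-- What an oracle machine does in a state: it reads the bit `v` of the input and proceeds in the
state `next b`, `b` being the value of the bit; it writes the bit `c` at the end of the query tape;
it asks the oracle whether the string on the query tape belongs to the oracle set, proceeds in the
state `next b`, `b` being the answer, and the query tape is erased; or it halts with the
output `b`. -/
inductive Act (V S : Type) : Type
  | read (v : V) (next : Bool → S)
  | write (c : Bool) (next : S)
  | ask (next : Bool → S)
  | halt (b : Bool)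

/-- A deterministic oracle machine with input bits indexed by `V`. The states are the
configurations of the machine without the query tape (control state, contents of the work tapes,
positions of the heads), so the logarithm of their number is the work memory; the query tape is
write-only and its length is not limited. The machine may read the input bits in any order, and
it may be different for different numbers of input bits. -/
structure OMach (V : Type) where
  /-- the configurations, without the query tape -/
  State : Type
  /-- there are finitely many of them -/
  [fintype : Fintype State]
  /-- the start -/
  start : State
  /-- what is done in a state -/
  act : State → Act V State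

attribute [instance] OMach.fintype

namespace OMach

variable {V : Type}

/-- `P.Run O m x q w L b`: the computation of the machine `P` with the oracle set `O` on the input
`x`, continued from the state `q` with the string `w` on the query tape, halts with the output
`b`; it reads the input bits of the list `L`, in this order, and all questions it asks are
strings of length at most `m`. -/
inductive Run (P : OMach V) (O : Set (List Bool)) (m : ℕ) (x : V → Bool) :
    P.State → List Bool → List V → Bool → Prop
  | halt {q : P.State} {w : List Bool} {b : Bool} (h : P.act q = Act.halt b) : Run P O m x q w [] b
  | read {q : P.State} {w : List Bool} {v : V} {next : Bool → P.State} {L : List V} {b : Bool}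
      (h : P.act q = Act.read v next) (h' : Run P O m x (next (x v)) w L b) :
      Run P O m x q w (v :: L) b
  | write {q : P.State} {w : List Bool} {c : Bool} {next : P.State} {L : List V} {b : Bool}
      (h : P.act q = Act.write c next) (h' : Run P O m x next (w ++ [c]) L b) :
      Run P O m x q w L b
  | yes {q : P.State} {w : List Bool} {next : Bool → P.State} {L : List V} {b : Bool}
      (h : P.act q = Act.ask next) (hm : w.length ≤ m) (hw : w ∈ O)
      (h' : Run P O m x (next true) [] L b) : Run P O m x q w L b
  | no {q : P.State} {w : List Bool} {next : Bool → P.State} {L : List V} {b : Bool}
      (h : P.act q = Act.ask next) (hm : w.length ≤ m) (hw : w ∉ O)
      (h' : Run P O m x (next false) [] L b) : Run P O m x q w L b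

/-- With the oracle set `O`, the machine halts on every input, and the questions have length at
most `m`. -/
def Total (P : OMach V) (O : Set (List Bool)) (m : ℕ) : Prop :=
  ∀ x : V → Bool, ∃ (L : List V) (b : Bool), P.Run O m x P.start [] L b

/-- On the input `x` the machine with the oracle set `O` reads the bits of the list `L`, in this
order, and halts with the output `b`. -/
def Comp (P : OMach V) (O : Set (List Bool)) (m : ℕ) (x : V → Bool) (L : List V) (b : Bool) :
    Prop :=
  P.Run O m x P.start [] L b

end OMach

/-- The set of the strings of length at most `m` in `O`. -/
def upTo (O : Set (List Bool)) (m : ℕ) : Set (List Bool) := {w | w ∈ O ∧ w.length ≤ m}

end Pool.Agent.V8H39.SO
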