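import Mathlib
import Pool.Agent.V8H39.SO.Defs
import Pool.Agent.H554R2.Coin.Defs

/-!
# Oracle machines with a sparse oracle are simulated by branching programs

The part of the query tape that matters is whether it is a beginning of a string of the oracle
set, and which one.
-/

set_option autoImplicit false

open Finset

namespace Pool.Agent.V8H39.SO

open Pool.Agent.H554R2.Coin

theorem upTo_finite (O : Set (List Bool)) (m : ℕ) : (upTo O m).Finite := by
  refine Set.Finite.subset (List.finite_length_le Bool m) ?_
  rintro w ⟨-, hw⟩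
  exact hw

/-- the beginnings of the strings of length at most `m` in `O` -/
noncomputable def pre (O : Set (List Bool)) (m : ℕ) : Finset (List Bool) :=
  insert [] ((upTo_finite O m).toFinset.biUnion fun w => (range w.length).image fun i => w.take (i + 1))

theorem nil_mem (O : Set (List Bool)) (m : ℕ) : [] ∈ pre O m := mem_insert_self _ _

theorem mem_pre {O : Set (List Bool)} {m : ℕ} {u : List Bool} :
    u ∈ pre O m ↔ u = [] ∨ ∃ w ∈ O, w.length ≤ m ∧ u <+: w := by
  classical
  unfold pre
  rw [mem_insert, mem_biUnion]
  constructor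
  · rintro (h | ⟨w, hw, hu⟩)
    · exact Or.inl h
    · right
      rw [Set.Finite.mem_toFinset] at hw
      obtain ⟨i, hi, rfl⟩ := mem_image.1 hu
      exact ⟨w, hw.1, hw.2, List.take_prefix _ _⟩
  · rintro (h | ⟨w, hw, hm, hu⟩)
    · exact Or.inl h
    · rcases Nat.eq_zero_or_pos u.length with h0 | h0
      · left; exact List.length_eq_zero_iff.1 h0
      · right
        refine ⟨w, ?_, mem_image.2 ⟨u.length - 1, ?_, ?_⟩⟩
        · rw [Set.Finite.mem_toFinset]; exact ⟨hw, hm⟩
        · rw [mem_range]
          have := hu.length_le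
          omega
        · rw [Nat.sub_add_cancel h0]
          exact (List.prefix_iff_eq_take.1 hu).symm

theorem pre_closed {O : Set (List Bool)} {m : ℕ} {u : List Bool} {c : Bool}
    (h : u ++ [c] ∈ pre O m) : u ∈ pre O m := by
  rw [mem_pre] at h ⊢
  rcases h with h | ⟨w, hw, hm, hu⟩
  · simp at h
  · exact Or.inr ⟨w, hw, hm, (List.prefix_append u [c]).trans hu⟩

theorem mem_pre_of_mem {O : Set (List Bool)} {m : ℕ} {w : List Bool} (h : w ∈ O)
    (hm : w.length ≤ m) : w ∈ pre O m :=
  mem_pre.2 (Or.inr ⟨w, h, hm, List.prefix_refl w⟩)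

theorem card_pre (O : Set (List Bool)) (m : ℕ) : (pre O m).card ≤ (upTo O m).ncard * m + 1 := by
  classical
  unfold pre
  refine (card_insert_le _ _).trans (Nat.add_le_add_right ?_ 1)
  rw [Set.ncard_eq_toFinset_card _ (upTo_finite O m)]
  refine card_biUnion_le_card_mul _ _ _ fun w hw => ?_
  rw [Set.Finite.mem_toFinset] at hw
  refine card_image_le.trans ?_
  rw [card_range]
  exact hw.2

variable {V : Type}

open Classical in
/-- what is remembered of the query tape -/
noncomputable def cls (O : Set (List Bool)) (m : ℕ) (w : List Bool) : Option (pre O m) :=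
  if h : w ∈ pre O m then some ⟨w, h⟩ else none

/-- writing a bit -/
noncomputable def wr (O : Set (List Bool)) (m : ℕ) (c : Bool) : Option (pre O m) → Option (pre O m)
  | none => none
  | some u => cls O m (u.1 ++ [c])

open Classical in
/-- the answer -/
noncomputable def ans (O : Set (List Bool)) (m : ℕ) : Option (pre O m) → Bool
  | none => false
  | some u => decide (u.1 ∈ O)

theorem cls_some {O : Set (List Bool)} {m : ℕ} {w : List Bool} (h : w ∈ pre O m) :
    cls O m w = some ⟨w, h⟩ := by
  unfold cls; rw [dif_pos h]

theorem cls_none {O : Set (List Bool)} {m : ℕ} {w : List Bool} (h : w ∉ pre O m) :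
    cls O m w = none := by
  unfold cls; rw [dif_neg h]

theorem wr_cls (O : Set (List Bool)) (m : ℕ) (c : Bool) (w : List Bool) :
    wr O m c (cls O m w) = cls O m (w ++ [c]) := by
  by_cases h : w ∈ pre O m
  · rw [cls_some h]; rfl
  · rw [cls_none h, cls_none fun h' => h (pre_closed h')]; rfl

theorem ans_yes {O : Set (List Bool)} {m : ℕ} {w : List Bool} (h : w ∈ O) (hm : w.length ≤ m) :
    ans O m (cls O m w) = true := by
  rw [cls_some (mem_pre_of_mem h hm)]
  simp [ans, h]

theorem ans_no {O : Set (List Bool)} {m : ℕ} {w : List Bool} (h : w ∉ O) :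
    ans O m (cls O m w) = false := by
  by_cases h' : w ∈ pre O m
  · rw [cls_some h']; simp [ans, h]
  · rw [cls_none h']; rfl

/-- the next state, if no input bit is read -/
noncomputable def sil (P : OMach V) (O : Set (List Bool)) (m : ℕ) (s : P.State × Option (pre O m)) :
    Option (P.State × Option (pre O m)) :=
  match P.act s.1 with
  | Act.write c next => some (next, wr O m c s.2)
  | Act.ask next => some (next (ans O m s.2), cls O m [])
  | _ => none

/-- `t` is the first state after `s` (or `s` itself) in which a bit is read or the machine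
halts -/
inductive Reach (P : OMach V) (O : Set (List Bool)) (m : ℕ) :
    P.State × Option (pre O m) → P.State × Option (pre O m) → Prop
  | refl {s : P.State × Option (pre O m)} (h : sil P O m s = none) : Reach P O m s s
  | step {s s' t : P.State × Option (pre O m)} (h : sil P O m s = some s')
      (h' : Reach P O m s' t) : Reach P O m s t

theorem reach_unique {P : OMach V} {O : Set (List Bool)} {m : ℕ}
    {s t : P.State × Option (pre O m)} (h : Reach P O m s t) :
    ∀ {t' : P.State × Option (pre O m)}, Reach P O m s t' → t = t' := by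
  induction h with
  | refl h =>
    intro t' h'
    cases h' with
    | refl _ => rfl
    | step h1 _ => rw [h] at h1; cases h1
  | step h h' ih =>
    intro t' h2
    cases h2 with
    | refl h1 => rw [h] at h1; cases h1
    | step h1 h3 =>
      rw [h] at h1
      cases h1
      exact ih h3

open Classical in
/-- this state -/
noncomputable def res (P : OMach V) (O : Set (List Bool)) (m : ℕ)
    (s : P.State × Option (pre O m)) : P.State × Option (pre O m) :=
  if h : ∃ t, Reach P O m s t then h.choose else s

theorem res_eq {P : OMach V} {O : Set (List Bool)} {m : ℕ} {s t : P.State × Option (pre O m)}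
    (h : Reach P O m s t) : res P O m s = t := by
  have h' : ∃ t, Reach P O m s t := ⟨t, h⟩
  unfold res
  rw [dif_pos h']
  exact (reach_unique h h'.choose_spec).symm

/-- the branching program -/
noncomputable def bp (P : OMach V) (O : Set (List Bool)) (m : ℕ) : BP V Bool where
  State := P.State × Option (pre O m)
  start := res P O m (P.start, cls O m [])
  node s := match P.act s.1 with
    | Act.read v next => Sum.inl (v, fun b => res P O m (next b, s.2))
    | Act.halt b => Sum.inr b
    | _ => Sum.inr false

theorem card_bp (P : OMach V) (O : Set (List Bool)) (m : ℕ) :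
    Fintype.card (bp P O m).State ≤ Fintype.card P.State * ((upTo O m).ncard * m + 2) := by
  have h : Fintype.card (bp P O m).State = Fintype.card (P.State × Option (pre O m)) := rfl
  rw [h, Fintype.card_prod, Fintype.card_option, Fintype.card_coe]
  exact Nat.mul_le_mul_left _ (Nat.add_le_add_right (card_pre O m) 1)

theorem sim {P : OMach V} {O : Set (List Bool)} {m : ℕ} {x : V → Bool} {q : P.State}
    {w : List Bool} {L : List V} {b : Bool} (h : P.Run O m x q w L b) :
    ∃ t, Reach P O m (q, cls O m w) t ∧
      ∃ v, (bp P O m).Walk x t L v ∧ (bp P O m).node v = Sum.inr b := by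
  induction h with
  | @halt q w b h =>
    refine ⟨(q, cls O m w), Reach.refl ?_, (q, cls O m w), rfl, ?_⟩
    · simp [sil, h]
    · simp [bp, h]
  | @read q w v next L b h h' ih =>
    obtain ⟨t, h1, u, h2, h3⟩ := ih
    refine ⟨(q, cls O m w), Reach.refl ?_, u, ⟨fun b => res P O m (next b, cls O m w), ?_, ?_⟩, h3⟩
    · simp [sil, h]
    · simp [bp, h]
    · simp only
      rw [res_eq h1]
      exact h2
  | @write q w c next L b h h' ih =>
    obtain ⟨t, h1, u, h2, h3⟩ := ih
    refine ⟨t, Reach.step (s' := (next, cls O m (w ++ [c]))) ?_ h1, u, h2, h3⟩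
    simp [sil, h, wr_cls]
  | @yes q w next L b h hm hw h' ih =>
    obtain ⟨t, h1, u, h2, h3⟩ := ih
    refine ⟨t, Reach.step (s' := (next true, cls O m [])) ?_ h1, u, h2, h3⟩
    simp [sil, h, ans_yes hw hm]
  | @no q w next L b h hm hw h' ih =>
    obtain ⟨t, h1, u, h2, h3⟩ := ih
    refine ⟨t, Reach.step (s' := (next false, cls O m [])) ?_ h1, u, h2, h3⟩
    simp [sil, h, ans_no hw]

theorem sim_comp {P : OMach V} {O : Set (List Bool)} {m : ℕ} {x : V → Bool} {L : List V} {b : Bool}
    (h : P.Comp O m x L b) : (bp P O m).Comp x L b := by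
  obtain ⟨t, h1, u, h2, h3⟩ := sim h
  refine ⟨u, ?_, h3⟩
  have : (bp P O m).start = t := res_eq h1
  rw [this]
  exact h2

theorem walk_unique {P : BP V Bool} {x : V → Bool} : ∀ {L L' : List V} {s u u' : P.State}
    {b b' : Bool}, P.Walk x s L u → P.node u = Sum.inr b → P.Walk x s L' u' →
    P.node u' = Sum.inr b' → L = L' ∧ b = b' := by
  intro L
  induction L with
  | nil =>
    intro L' s u u' b b' h1 h2 h3 h4
    have h1' : s = u := h1
    subst h1'
    cases L' with
    | nil =>
      have h3' : s = u' := h3
      subst h3'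
      rw [h2] at h4
      exact ⟨rfl, Sum.inr.inj h4⟩
    | cons i L' =>
      obtain ⟨nxt, h5, -⟩ := h3
      rw [h2] at h5
      cases h5
  | cons i L ih =>
    intro L' s u u' b b' h1 h2 h3 h4
    obtain ⟨nxt, h5, h6⟩ := h1
    cases L' with
    | nil =>
      have h3' : s = u' := h3
      subst h3'
      rw [h5] at h4
      cases h4
    | cons i' L' =>
      obtain ⟨nxt', h7, h8⟩ := h3
      rw [h5] at h7
      have h9 := Sum.inl.inj h7
      obtain ⟨rfl, rfl⟩ := Prod.mk.inj h9
      obtain ⟨h10, h11⟩ := ih h6 h2 h8 h4
      exact ⟨by rw [h10], h11⟩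

theorem comp_unique {P : BP V Bool} {x : V → Bool} {L L' : List V} {b b' : Bool}
    (h : P.Comp x L b) (h' : P.Comp x L' b') : L = L' ∧ b = b' := by
  obtain ⟨u, h1, h2⟩ := h
  obtain ⟨u', h3, h4⟩ := h'
  exact walk_unique h1 h2 h3 h4

/-- the program has the same computations as the machine -/
theorem comp_iff {P : OMach V} {O : Set (List Bool)} {m : ℕ} (hP : P.Total O m) (x : V → Bool)
    (L : List V) (b : Bool) : (bp P O m).Comp x L b ↔ P.Comp O m x L b := by
  constructor
  · intro h
    obtain ⟨L', b', h'⟩ := hP x
    obtain ⟨rfl, rfl⟩ := comp_unique h (sim_comp h')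
    exact h'
  · exact sim_comp

end Pool.Agent.V8H39.SO
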